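import Pool.Agent.PCS.Stmts

/-!
Squad PCS, row UNB: unbounded orbit sizes of good ultrafilters give polynomial growth.
-/

open scoped Pointwise

namespace Pool.Agent.PCS.H69

open Pool.Agent.H50.CIG

section

variable {Γ V : Type} [Group Γ] [MulAction Γ V]

theorem N_root (T : Tree Γ V) : N Γ T.root ≤ 1 := by
  have h : MulAction.orbit Γ T.root ⊆ {T.root} := by
    rintro w ⟨g, rfl⟩
    have hw : T.lv (g • T.root) = 0 := by rw [T.lv_smul, T.lv_root]
    exact T.eq_root _ hw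
  have h2 := Set.ncard_le_ncard h (Set.finite_singleton _)
  rw [Set.ncard_singleton] at h2
  exact h2

/-- the first vertex on the path from the root with orbit size at least `t` -/
theorem first (h1 : LevStmt) (h2 : ItpStmt) (T : Tree Γ V) (t : ℕ) (v : V) (ht : t ≤ N Γ v) :
    ∃ m ≤ T.lv v, t ≤ N Γ (T.par^[m] v) ∧ N Γ (T.par^[m] v) ≤ T.d * t + 1 := by
  classical
  obtain ⟨hd, hlev⟩ := h1 Γ V T
  obtain ⟨-, i2, -, -, -, -⟩ := h2 Γ V T
  set P : ℕ → Prop := fun m => t ≤ N Γ (T.par^[m] v) with hP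
  have h0 : P 0 := ht
  set m := Nat.findGreatest P (T.lv v) with hm
  have hmle : m ≤ T.lv v := Nat.findGreatest_le _
  have hPm : P m := Nat.findGreatest_spec (Nat.zero_le _) h0
  refine ⟨m, hmle, hPm, ?_⟩
  rcases hmle.lt_or_eq with hlt | heq
  · have hn : ¬ P (m + 1) := Nat.findGreatest_is_greatest (Nat.lt_succ_self _) hlt
    have hn' : N Γ (T.par^[m + 1] v) < t := not_le.mp hn
    rw [Function.iterate_succ_apply'] at hn'
    have hl : 0 < T.lv (T.par^[m] v) := by rw [i2]; omega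
    have h3 := ((hlev (T.par^[m] v)).2.2 hl).2
    have h4 : T.d * N Γ (T.par (T.par^[m] v)) ≤ T.d * t := Nat.mul_le_mul_left _ hn'.le
    omega
  · have hl : T.lv (T.par^[m] v) = 0 := by rw [i2]; omega
    rw [T.eq_root _ hl]
    have := N_root T
    omega

theorem N_le_pow (h1 : LevStmt) (h2 : ItpStmt) (T : Tree Γ V) (k : ℕ) (v : V)
    (hk : k ≤ T.lv v) : N Γ v ≤ T.d ^ k * N Γ (T.par^[k] v) := by
  obtain ⟨hd, hlev⟩ := h1 Γ V T
  obtain ⟨-, i2, -, -, -, -⟩ := h2 Γ V T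
  induction k with
  | zero => simp
  | succ k ih =>
    have h3 := ih (by omega)
    have hl : 0 < T.lv (T.par^[k] v) := by rw [i2]; omega
    have h4 := ((hlev (T.par^[k] v)).2.2 hl).2
    rw [Function.iterate_succ_apply', pow_succ, mul_assoc]
    exact h3.trans (Nat.mul_le_mul_left _ h4)

end

theorem unb (h1 : LevStmt) (h2 : ItpStmt) (h3 : UbdStmt) (h4 : CntStmt) (h5 : TypStmt)
    (h6 : DscStmt) : UnbStmt := by
  intro Γ V _ _ T S rk R K q hset hun
  obtain ⟨C, D, hCD⟩ := h3 Γ V T S rk R hset.rank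
  obtain ⟨i1, i2, i3, i4, -, -⟩ := h2 Γ V T
  refine ⟨Nat.card (fc Γ) * q * (2 ^ (T.d * K) * (T.d * C + 1)) ^ 2, 2 * (T.d * K + D), ?_⟩
  intro r
  set j := Nat.log 2 r + 1 with hj
  have hr1 : r ≤ 2 ^ j := (Nat.lt_pow_succ_log_self (by norm_num) r).le
  have hr2 : 2 ^ j ≤ 2 * (r + 1) := by
    rw [hj, pow_succ, mul_comm]
    refine Nat.mul_le_mul_left _ ?_
    rcases Nat.eq_zero_or_pos r with h0 | h0
    · subst h0; simp
    · exact (Nat.pow_log_le_self 2 h0.ne').trans (Nat.le_succ _)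
  set t := C * (r + 1) ^ D with ht
  obtain ⟨U, n, htn, hU⟩ := hun t
  obtain ⟨U', n', hU', hnn', hmap, hlv⟩ := h6 Γ V T S rk R K q hset U n hU (K * j)
  have htyp := h5 Γ V T S rk R K q hset U' n' hU' (2 * r)
  have hN : ∀ᶠ v in (U' : Filter V), N Γ (T.par^[K * j] v) = n := by
    have h7 := hU.1
    rw [← hmap] at h7
    exact h7
  obtain ⟨v, ⟨hv1, hv2⟩, hv3⟩ := ((hlv.and htyp).and hN).exists
  have htu0 : t ≤ N Γ (T.par^[K * j] v) := by rw [hv3]; exact htn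
  obtain ⟨m, hm, hmt, hmd⟩ := first h1 h2 T t _ htu0
  rw [i2] at hm
  set u' := T.par^[m] v with hu'
  have hcomm : T.par^[K * j] u' = T.par^[m] (T.par^[K * j] v) := by
    rw [hu', ← Function.iterate_add_apply, ← Function.iterate_add_apply, add_comm]
  have hlvu : K * j ≤ T.lv u' := by rw [hu', i2]; omega
  rw [← hcomm] at hmt hmd
  have hball : ∀ w ∈ MulAction.orbit Γ u', ∀ g ∈ ball S (2 * r), g ∈ KK T w → g ∈ fc Γ := by
    rintro w ⟨a, rfl⟩ g hg hgK
    refine hv2 (a • v) ⟨a, rfl⟩ g hg ?_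
    have h8 : (fun b : Γ => b • u') a = T.par^[m] (a • v) := by
      show a • u' = _
      rw [hu', i1]
    rw [h8] at hgK
    exact i3 m (a • v) hgK
  have h9 := h4 Γ V T S rk R K q hset r j u' hr1 hlvu hball (hCD r _ hmt)
  have h10 : N Γ u' ≤ T.d ^ (K * j) * (T.d * t + 1) :=
    (N_le_pow h1 h2 T (K * j) u' hlvu).trans (Nat.mul_le_mul_left _ hmd)
  have h11 : T.d ^ (K * j) ≤ 2 ^ (T.d * K) * (r + 1) ^ (T.d * K) := by
    calc T.d ^ (K * j) ≤ (2 ^ T.d) ^ (K * j) :=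
          Nat.pow_le_pow_left (Nat.lt_two_pow_self).le _
      _ = (2 ^ j) ^ (T.d * K) := by
          rw [← pow_mul, ← pow_mul]
          congr 1
          ring
      _ ≤ (2 * (r + 1)) ^ (T.d * K) := Nat.pow_le_pow_left hr2 _
      _ = 2 ^ (T.d * K) * (r + 1) ^ (T.d * K) := by rw [mul_pow]
  have h12 : T.d * t + 1 ≤ (T.d * C + 1) * (r + 1) ^ D := by
    have h13 : 1 ≤ (r + 1) ^ D := Nat.one_le_pow _ _ (Nat.succ_pos _)
    calc T.d * t + 1 = T.d * C * (r + 1) ^ D + 1 := by rw [ht]; ring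
      _ ≤ T.d * C * (r + 1) ^ D + (r + 1) ^ D := Nat.add_le_add_left h13 _
      _ = (T.d * C + 1) * (r + 1) ^ D := by ring
  have h14 : N Γ u' ≤ 2 ^ (T.d * K) * (r + 1) ^ (T.d * K) * ((T.d * C + 1) * (r + 1) ^ D) :=
    h10.trans (Nat.mul_le_mul h11 h12)
  calc (ball S r).ncard ≤ Nat.card (fc Γ) * q * N Γ u' ^ 2 := h9
    _ ≤ Nat.card (fc Γ) * q *
        (2 ^ (T.d * K) * (r + 1) ^ (T.d * K) * ((T.d * C + 1) * (r + 1) ^ D)) ^ 2 :=
        Nat.mul_le_mul_left _ (Nat.pow_le_pow_left h14 2)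
    _ = Nat.card (fc Γ) * q * (2 ^ (T.d * K) * (T.d * C + 1)) ^ 2 *
        (r + 1) ^ (2 * (T.d * K + D)) := by ring

end Pool.Agent.PCS.H69
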